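import Mathlib

set_option autoImplicit false

open Complex Polynomial Filter Topology Set ComplexConjugate

namespace Pool.Agent.MP_81537f_an

lemma exp_unif (R δ : ℝ) (hR : 0 ≤ R) (hδ : 0 < δ) : ∃ l : ℕ, 1 ≤ l ∧
    ∀ w : ℂ, ‖w‖ ≤ R → ‖(1 + w / l) ^ l - exp w‖ ≤ δ := by
  obtain ⟨l, hl⟩ := exists_nat_gt (1 + 2 * R + R ^ 2 + 2 * Real.exp R * R ^ 2 / δ)
  have e0 : 0 ≤ 2 * Real.exp R * R ^ 2 / δ := by positivity
  have e1 : 0 ≤ R ^ 2 := by positivity
  have hl1 : (1 : ℝ) < l := by linarith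
  have hl0 : (0 : ℝ) < l := by linarith
  refine ⟨l, by exact_mod_cast hl1.le, fun w hw => ?_⟩
  have hx : ‖w / l‖ ≤ R / l := by
    rw [norm_div, Complex.norm_natCast]; gcongr
  have hx2 : ‖w / l‖ ≤ 1 / 2 := hx.trans (by rw [div_le_iff₀ hl0]; linarith)
  have hne : 1 + w / l ≠ 0 := slitPlane_ne_zero (mem_slitPlane_of_norm_lt_one (by linarith))
  have h1 : ‖log (1 + w / l) - w / l‖ ≤ ‖w / l‖ ^ 2 := by
    refine (norm_log_one_add_sub_self_le (by linarith)).trans ?_
    have : (1 - ‖w / l‖)⁻¹ ≤ 2 := by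
      rw [inv_le_comm₀ (by linarith) two_pos]; linarith
    have : 0 ≤ ‖w / l‖ ^ 2 := by positivity
    nlinarith
  have h2 : ‖(l : ℂ) * (log (1 + w / l) - w / l)‖ ≤ R ^ 2 / l := by
    rw [norm_mul, Complex.norm_natCast]
    calc _ ≤ l * (R / l) ^ 2 := by gcongr; exact h1.trans (by gcongr)
      _ = R ^ 2 / l := by field_simp
  have h3 : R ^ 2 / l ≤ 1 := by rw [div_le_one hl0]; linarith
  have hlc : (l : ℂ) ≠ 0 := by exact_mod_cast hl0.ne'
  have id1 : (1 + w / l) ^ l - exp w =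
      exp w * (exp ((l : ℂ) * (log (1 + w / l) - w / l)) - 1) := by
    rw [mul_sub, ← exp_add, mul_sub, mul_div_cancel₀ _ hlc, add_sub_cancel, exp_nat_mul,
      exp_log hne, mul_one]
  rw [id1, norm_mul]
  have h4 := (norm_exp_sub_one_le (h2.trans h3)).trans (mul_le_mul_of_nonneg_left h2 two_pos.le)
  have h5 : ‖exp w‖ ≤ Real.exp R := (norm_exp_le_exp_norm w).trans (Real.exp_le_exp.2 hw)
  calc _ ≤ Real.exp R * (2 * (R ^ 2 / l)) := by gcongr
    _ = (2 * Real.exp R * R ^ 2 / δ) / l * δ := by field_simp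
    _ ≤ 1 * δ := by gcongr; rw [div_le_one hl0]; linarith
    _ = δ := one_mul _

open Classical in
lemma card_upper_roots (R : ℝ[X]) (hR : R ≠ 0) :
    2 * ((R.map (algebraMap ℝ ℂ)).roots.toFinset.filter fun z => 0 < z.im).card +
      ((R.map (algebraMap ℝ ℂ)).roots.toFinset.filter fun z => z.im = 0).card ≤ R.natDegree := by
  set Z := (R.map (algebraMap ℝ ℂ)).roots.toFinset with hZ
  have hRc : R.map (algebraMap ℝ ℂ) ≠ 0 := Polynomial.map_ne_zero hR
  have hmem : ∀ z, z ∈ Z ↔ aeval z R = 0 := by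
    intro z
    rw [hZ, Multiset.mem_toFinset, mem_roots hRc, IsRoot.def, eval_map_algebraMap]
  have h1 : Z.card ≤ R.natDegree :=
    (Multiset.toFinset_card_le _).trans ((card_roots' _).trans natDegree_map_le)
  have h2 : (Z.filter fun z => 0 < z.im).card ≤ (Z.filter fun z => z.im < 0).card := by
    refine Finset.card_le_card_of_injOn conj ?_ (star_injective.injOn)
    intro z hz
    simp only [Finset.coe_filter, mem_ofPred_eq, hmem] at hz ⊢
    rw [aeval_conj, hz.1, map_zero, conj_im]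
    exact ⟨rfl, by linarith [hz.2]⟩
  have h3 := Finset.card_filter_add_card_filter_not (s := Z) (fun z => 0 < z.im)
  have h4 := Finset.card_filter_add_card_filter_not (s := Z.filter fun z => ¬ 0 < z.im)
    (fun z => z.im < 0)
  have h5 : ((Z.filter fun z => ¬ 0 < z.im).filter fun z => z.im < 0) =
      Z.filter fun z => z.im < 0 := by
    rw [Finset.filter_filter]
    exact Finset.filter_congr fun z _ => ⟨fun h => h.2, fun h => ⟨not_lt.2 h.le, h⟩⟩
  have h6 : ((Z.filter fun z => ¬ 0 < z.im).filter fun z => ¬ z.im < 0) =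
      Z.filter fun z => z.im = 0 := by
    rw [Finset.filter_filter]
    exact Finset.filter_congr fun z _ => ⟨fun h => le_antisymm (not_lt.1 h.1) (not_lt.1 h.2),
      fun h => ⟨by simp [h], by simp [h]⟩⟩
  rw [h5, h6] at h4
  omega

open Classical in
lemma card_upper_roots_le {p : ℕ} {a : ℝ} (ha : 0 ≤ a) (β : ℝ[X]) (hβ : β.natDegree ≤ 2 * p + 1)
    (h0 : 0 < β.eval 0) :
    (((β - C a * X ^ (2 * p + 2)).map (algebraMap ℝ ℂ)).roots.toFinset.filter
      fun z : ℂ => 0 < z.im).card ≤ p := by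
  set R := β - C a * X ^ (2 * p + 2) with hR
  have hR0 : R.eval 0 = β.eval 0 := by simp [hR]
  have hRne : R ≠ 0 := by
    intro h
    rw [h, eval_zero] at hR0
    linarith
  have hc := card_upper_roots R hRne
  rcases ha.eq_or_lt with rfl | ha
  · have : R.natDegree ≤ 2 * p + 1 := by simpa [hR] using hβ
    omega
  · have hco : R.coeff (2 * p + 2) = -a := by
      rw [hR, coeff_sub, coeff_eq_zero_of_natDegree_lt (by omega), coeff_C_mul, coeff_X_pow]
      simp
    have hd : R.natDegree = 2 * p + 2 := by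
      apply natDegree_eq_of_le_of_coeff_ne_zero
      · exact (natDegree_sub_le _ _).trans (max_le (by omega)
          ((natDegree_C_mul_le _ _).trans (natDegree_X_pow_le _)))
      · rw [hco]; linarith
    have ht := Polynomial.tendsto_atBot_of_leadingCoeff_nonpos R
      (natDegree_pos_iff_degree_pos.1 (by omega)) (by rw [leadingCoeff, hd, hco]; linarith)
    obtain ⟨x, hx⟩ := (ht.eventually (eventually_le_atBot 0)).exists
    obtain ⟨r, hr⟩ := intermediate_value_univ x 0 R.continuous ⟨hx, by rw [hR0]; exact h0.le⟩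
    have : 1 ≤ ((R.map (algebraMap ℝ ℂ)).roots.toFinset.filter fun z => z.im = 0).card := by
      refine Finset.card_pos.2 ⟨r, ?_⟩
      rw [Finset.mem_filter, Multiset.mem_toFinset, mem_roots (Polynomial.map_ne_zero hRne),
        IsRoot.def, eval_map_algebraMap]
      refine ⟨?_, ofReal_im _⟩
      have := aeval_algebraMap_apply_eq_algebraMap_eval (A := ℂ) r R
      simp only at hr
      rw [hr, map_zero] at this
      exact this
    omega

lemma approx_exp {p : ℕ} {a : ℝ} (ha : 0 ≤ a) (β P : ℝ[X]) (hβ : β.natDegree ≤ 2 * p + 1)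
    (h0 : β.eval 0 = 0) (hP : ∀ z : ℂ, 0 < z.im → aeval z P ≠ 0) (δ : ℝ) (hδ : 0 < δ) :
    ∃ (F : ℂ[X]) (S : Finset ℂ), S.card ≤ p ∧
      (∀ z, ‖F.eval (conj z)‖ = ‖F.eval z‖) ∧ (∀ z : ℂ, 0 < z.im → F.eval z = 0 → z ∈ S) ∧
      ∀ z : ℂ, ‖z‖ ≤ 1 →
        ‖F.eval z - aeval z P * exp (-(a : ℂ) * z ^ (2 * p + 2) + aeval z β)‖ ≤ δ := by
  classical
  obtain ⟨R, hR⟩ := (isCompact_closedBall (0 : ℂ) 1).exists_bound_of_continuousOn
    (f := fun z => -(a : ℂ) * z ^ (2 * p + 2) + aeval z β) (by fun_prop)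
  obtain ⟨M, hM⟩ := (isCompact_closedBall (0 : ℂ) 1).exists_bound_of_continuousOn
    (f := fun z => aeval z P) (by fun_prop)
  have hR0 : 0 ≤ R := (norm_nonneg _).trans (hR 0 (by simp))
  have hM0 : 0 ≤ M := (norm_nonneg _).trans (hM 0 (by simp))
  obtain ⟨l, hl, hexp⟩ := exp_unif R (δ / (M + 1)) hR0 (by positivity)
  have hl0 : (0 : ℝ) < l := by exact_mod_cast hl
  set G : ℝ[X] := (1 + C (1 / l : ℝ) * β) - C (a / l) * X ^ (2 * p + 2) with hG
  have hGe : ∀ z : ℂ, aeval z G = 1 + (-(a : ℂ) * z ^ (2 * p + 2) + aeval z β) / l := by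
    intro z
    simp only [hG, map_sub, map_add, map_one, map_mul, aeval_C, map_pow, aeval_X,
      coe_algebraMap]
    push_cast
    ring
  have hG0 : (1 + C (1 / l : ℝ) * β).eval 0 = 1 := by simp [h0]
  have hGne : G ≠ 0 := by
    intro h
    have : G.eval 0 = 1 := by rw [hG, eval_sub, hG0]; simp
    rw [h, eval_zero] at this
    exact zero_ne_one this
  refine ⟨(P * G ^ l).map (algebraMap ℝ ℂ),
    (G.map (algebraMap ℝ ℂ)).roots.toFinset.filter fun z : ℂ => 0 < z.im, ?_, ?_, ?_, ?_⟩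
  · refine card_upper_roots_le (by positivity) _ ?_ (by rw [hG0]; exact one_pos)
    exact (natDegree_add_le _ _).trans (max_le (by simp) ((natDegree_C_mul_le _ _).trans hβ))
  · intro z
    rw [eval_map_algebraMap, eval_map_algebraMap, aeval_conj, Complex.norm_conj]
  · intro z hz h
    rw [eval_map_algebraMap, map_mul, map_pow, mul_eq_zero, or_iff_right (hP z hz)] at h
    rw [Finset.mem_filter, Multiset.mem_toFinset, mem_roots (Polynomial.map_ne_zero hGne),
        IsRoot.def, eval_map_algebraMap]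
    exact ⟨pow_eq_zero_iff (by omega) |>.1 h, hz⟩
  · intro z hz
    rw [eval_map_algebraMap, map_mul, map_pow, hGe, ← mul_sub, norm_mul]
    have h1 := hexp _ (hR z (by simpa using hz))
    have h2 := hM z (by simpa using hz)
    calc _ ≤ (M + 1) * (δ / (M + 1)) := by gcongr; linarith
      _ = δ := by field_simp

/-- Weierstrass elementary factor. -/
noncomputable def wf (q : ℕ) (w : ℂ) : ℂ :=
  (1 - w) * exp (∑ j ∈ Finset.Icc 1 q, w ^ j / (j : ℂ))

lemma wf_bound (q : ℕ) {w : ℂ} (hw : ‖w‖ ≤ 1 / 2) : ‖wf q w - 1‖ ≤ 4 * ‖w‖ ^ (q + 1) := by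
  have h1 := norm_log_one_sub_inv_add_logTaylor_neg_le q (z := w) (by linarith)
  have hne : 1 - w ≠ 0 := by
    intro h
    rw [sub_eq_zero] at h
    rw [← h, norm_one] at hw
    linarith
  have h2 : logTaylor (q + 1) (-w) = -∑ j ∈ Finset.Icc 1 q, w ^ j / (j : ℂ) := by
    induction q with
    | zero => simp [logTaylor_succ, logTaylor_zero]
    | succ k _ =>
      rw [logTaylor, Finset.range_eq_Ico, Finset.sum_eq_sum_Ico_succ_bot (by omega),
        ← Finset.sum_neg_distrib]
      simp only [Nat.cast_zero, div_zero, zero_add]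
      refine Finset.sum_congr rfl fun j _ => ?_
      rw [neg_pow w, ← mul_assoc, pow_succ, mul_right_comm _ (-1 : ℂ), ← mul_pow]
      simp [neg_div]
  have h3 : wf q w = exp (-(log (1 - w)⁻¹ + logTaylor (q + 1) (-w))) := by
    rw [neg_add, exp_add, exp_neg, exp_log (inv_ne_zero hne), inv_inv, h2, neg_neg, wf]
  have h4 : (1 - ‖w‖)⁻¹ ≤ 2 := by
    rw [inv_le_comm₀ (by linarith) two_pos]; linarith
  have h5 : ‖log (1 - w)⁻¹ + logTaylor (q + 1) (-w)‖ ≤ 2 * ‖w‖ ^ (q + 1) := by
    refine h1.trans ?_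
    have : (1 : ℝ) ≤ q + 1 := by linarith [Nat.cast_nonneg (α := ℝ) q]
    calc _ ≤ ‖w‖ ^ (q + 1) * 2 / 1 := by gcongr
      _ = _ := by ring
  have h6 : ‖w‖ ^ (q + 1) ≤ 1 / 2 :=
    (pow_le_of_le_one (norm_nonneg _) (by linarith) (by omega)).trans hw
  rw [h3]
  refine (norm_exp_sub_one_le (by rw [norm_neg]; linarith)).trans ?_
  rw [norm_neg]
  linarith

lemma wf_ev {q : ℕ} {y : ℕ → ℝ} (hy : Summable fun n => |y n| ^ (q + 1)) (R : ℝ) (hR : 0 < R) :
    ∀ᶠ n in atTop, ∀ z ∈ Metric.closedBall (0 : ℂ) R,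
      ‖wf q (y n * z) - 1‖ ≤ 4 * R ^ (q + 1) * |y n| ^ (q + 1) := by
  filter_upwards [hy.tendsto_atTop_zero.eventually
    (gt_mem_nhds (show 0 < (1 / (2 * R)) ^ (q + 1) by positivity))] with n hn z hz
  have h1 : |y n| < 1 / (2 * R) := lt_of_pow_lt_pow_left₀ _ (by positivity) hn
  rw [mem_closedBall_zero_iff] at hz
  have h2 : ‖(y n : ℂ) * z‖ ≤ |y n| * R := by
    rw [norm_mul, Complex.norm_real, Real.norm_eq_abs]; gcongr
  have h3 : |y n| * R ≤ 1 / 2 := by
    rw [lt_div_iff₀ (by positivity)] at h1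
    linarith
  refine (wf_bound q (h2.trans h3)).trans ?_
  rw [mul_assoc, ← mul_pow, mul_comm R]
  gcongr

lemma continuous_wf (q : ℕ) (c : ℂ) : Differentiable ℂ fun z => wf q (c * z) := by
  unfold wf
  fun_prop

lemma wf_unif {q : ℕ} {y : ℕ → ℝ} (hy : Summable fun n => |y n| ^ (q + 1)) (R : ℝ) (hR : 0 < R) :
    TendstoUniformlyOn (fun k z => ∏ n ∈ Finset.range k, wf q (y n * z))
      (fun z => ∏' n, wf q (y n * z)) atTop (Metric.closedBall 0 R) := by
  have := Summable.hasProdUniformlyOn_nat_one_add (f := fun n z => wf q (y n * z) - 1)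
    (isCompact_closedBall 0 R) (hy.mul_left (4 * R ^ (q + 1))) (wf_ev hy R hR)
    (fun n => ((continuous_wf q _).continuous.sub continuous_const).continuousOn)
  simpa using this.tendstoUniformlyOn_finsetRange

lemma wf_differentiable {q : ℕ} {y : ℕ → ℝ} (hy : Summable fun n => |y n| ^ (q + 1)) :
    Differentiable ℂ fun z => ∏' n, wf q (y n * z) := by
  intro z
  have hR : 0 < ‖z‖ + 1 := by positivity
  have := ((wf_unif hy _ hR).tendstoLocallyUniformlyOn.mono
    Metric.ball_subset_closedBall).differentiableOn (Eventually.of_forall fun k =>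
      (Differentiable.fun_finsetProd fun n _ => continuous_wf q _).differentiableOn)
    Metric.isOpen_ball
  exact this.differentiableAt (Metric.isOpen_ball.mem_nhds (by simp))

lemma wf_tendsto {q : ℕ} {y : ℕ → ℝ} (hy : Summable fun n => |y n| ^ (q + 1)) (z : ℂ) :
    Tendsto (fun k => ∏ n ∈ Finset.range k, wf q (y n * z)) atTop (𝓝 (∏' n, wf q (y n * z))) :=
  (wf_unif hy (‖z‖ + 1) (by positivity)).tendsto_at (by simp)

lemma wf_conj {q : ℕ} {y : ℕ → ℝ} (hy : Summable fun n => |y n| ^ (q + 1)) (z : ℂ) :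
    ∏' n, wf q (y n * conj z) = conj (∏' n, wf q (y n * z)) := by
  refine tendsto_nhds_unique (wf_tendsto hy (conj z)) ?_
  refine ((continuous_conj.tendsto _).comp (wf_tendsto hy z)).congr fun k => ?_
  simp [wf, ← exp_conj]

lemma wf_ne_zero {q : ℕ} {y : ℕ → ℝ} (hy : Summable fun n => |y n| ^ (q + 1)) {z : ℂ}
    (hz : z.im ≠ 0) : ∏' n, wf q (y n * z) ≠ 0 := by
  have := tprod_one_add_ne_zero_of_summable (f := fun n => wf q (y n * z) - 1) (by
    intro n
    rw [add_sub_cancel, wf]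
    refine mul_ne_zero (fun h => ?_) (exp_ne_zero _)
    have h1 := congrArg im h
    have h2 := congrArg re h
    simp only [sub_im, one_im, mul_im, ofReal_re, ofReal_im, zero_mul, add_zero, zero_sub, zero_im,
      neg_eq_zero, mul_eq_zero, hz, or_false] at h1
    simp [h1] at h2) (by
    refine Summable.of_norm_bounded_eventually_nat
      (hy.mul_left (4 * (‖z‖ + 1) ^ (q + 1))) ?_
    filter_upwards [wf_ev hy (‖z‖ + 1) (by positivity)] with n hn
    rw [norm_norm]
    exact hn z (by simp))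
  simpa using this

end Pool.Agent.MP_81537f_an
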